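import Pool.Agent.H112R2.FinalGap
import Pool.Agent.H217R3.AK.Bsg

/-!
# Polynomial Freiman-Ruzsa for sets which contain a large part of large additive energy

If `|A + B| ≤ K |B|` and the additive energy of `B` is at least `|B|³ / L` then `A` is covered by
`K (2 L) ^ (C (1 + log (1 + log (2 L))))` translates of one proper progression of rank at most
`C log (2 L)` and size at most `|B|`.  So the polynomial bound of the conjecture holds for every set
`A` of doubling `K` with a subset `B`, `|B| ≥ K ^ (-C) |A|`, whose energy is at least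
`|B|³ / exp (C log K / log log K)`.

Proof: Balog-Szemeredi-Gowers, the near-polynomial Freiman-Ruzsa theorem, the part of the subset in one
translate of the progression, and the covering lemma of Ruzsa for `A` and this part.
-/

set_option autoImplicit false

open scoped Pointwise

namespace Pool.Agent.Results.MP_626a77_co.LargeEnergy

variable {Γ : Type*} [AddCommGroup Γ] [DecidableEq Γ]

theorem energy_le (B : Finset Γ) : B.addEnergy B ≤ B.card ^ 3 := by
  classical
  have h : B.addEnergy B ≤ (((B ×ˢ B) ×ˢ B : Finset ((Γ × Γ) × Γ))).card := by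
    unfold Finset.addEnergy
    refine Finset.card_le_card_of_injOn (fun x => (x.1, x.2.1)) ?_ ?_
    · intro x hx
      simp only [Finset.coe_filter, Finset.mem_product, Set.mem_setOf_eq] at hx
      simp only [Finset.coe_product, Set.mem_prod, Finset.mem_coe]
      exact ⟨hx.1.1, hx.1.2.1⟩
    · intro x hx y hy h
      simp only [Finset.coe_filter, Finset.mem_product, Set.mem_setOf_eq] at hx hy
      obtain ⟨h1, h2⟩ := Prod.mk.inj h
      have h3 := hx.2
      have h4 := hy.2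
      rw [h1, h2] at h3
      have h5 : x.2.2 = y.2.2 := by
        have : y.1.2 + x.2.2 = y.1.2 + y.2.2 := by rw [← h3, ← h4]
        exact add_left_cancel this
      exact Prod.ext h1 (Prod.ext h2 h5)
  refine h.trans (le_of_eq ?_)
  rw [Finset.card_product, Finset.card_product]
  ring

theorem add_le_of_sub {B : Finset Γ} (hB : B.Nonempty) {M : ℝ}
    (h : ((B - B).card : ℝ) ≤ M * B.card) : ((B + B).card : ℝ) ≤ M ^ 2 * B.card := by
  have hB0 : (0 : ℝ) < B.card := by exact_mod_cast hB.card_pos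
  have h1 := Finset.pluennecke_ruzsa_inequality_nsmul_sub hB B 2
  rw [two_nsmul] at h1
  have h2 : ((B + B).card : ℝ) ≤ (((B - B).card : ℝ) / B.card) ^ 2 * B.card := by
    have h3 := (NNRat.cast_le (K := ℝ)).2 h1
    push_cast at h3
    exact h3
  refine h2.trans ?_
  have h3 : ((B - B).card : ℝ) / B.card ≤ M := by rwa [div_le_iff₀ hB0]
  have h4 : (0 : ℝ) ≤ ((B - B).card : ℝ) / B.card := by positivity
  exact mul_le_mul_of_nonneg_right (pow_le_pow_left₀ h4 h3 2) hB0.le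

theorem numbers {L : ℝ} (hL : 1 ≤ L) (d : ℕ) (t : ℝ)
    (hd : (d : ℝ) ≤ 300 * Real.log (2 * (2 ^ 22 * L ^ 10) ^ 2))
    (ht : t ≤ (2 * (2 ^ 22 * L ^ 10) ^ 2) ^
      (17000 * (1 + Real.log (1 + Real.log (2 * (2 ^ 22 * L ^ 10) ^ 2))))) :
    (d : ℝ) ≤ 13500 * Real.log (2 * L) ∧
      8 * L * t * 2 ^ d ≤ (2 * L) ^ (4000000 * (1 + Real.log (1 + Real.log (2 * L)))) := by
  have hL0 : 0 < L := by linarith
  obtain ⟨ℓ, hℓ⟩ : ∃ ℓ : ℝ, ℓ = Real.log (2 * L) := ⟨_, rfl⟩
  have hlog2 : 0 < Real.log 2 := Real.log_pos (by norm_num)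
  have hlog2' : Real.log 2 ≤ 1 := by have := Real.log_two_lt_d9; linarith
  have hℓL : ℓ = Real.log 2 + Real.log L := by rw [hℓ, Real.log_mul (by norm_num) hL0.ne']
  have hlogL : 0 ≤ Real.log L := Real.log_nonneg hL
  have hℓ2 : Real.log 2 ≤ ℓ := by linarith
  have hℓ0 : 0 < ℓ := by linarith
  obtain ⟨κ, hκ⟩ : ∃ κ : ℝ, κ = Real.log (2 * (2 ^ 22 * L ^ 10) ^ 2) := ⟨_, rfl⟩
  have hκ1 : κ = 45 * Real.log 2 + 20 * Real.log L := by
    rw [hκ]
    have e : 2 * (2 ^ 22 * L ^ 10) ^ 2 = 2 ^ 45 * L ^ 20 := by ring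
    rw [e, Real.log_mul (by positivity) (by positivity), Real.log_pow, Real.log_pow]
    norm_num
  have hκ2 : κ ≤ 45 * ℓ := by rw [hκ1, hℓL]; linarith
  have hκ0 : 0 < κ := by rw [hκ1]; positivity
  rw [← hκ] at hd ht
  rw [← hℓ]
  obtain ⟨lam, hlam⟩ : ∃ lam : ℝ, lam = 1 + Real.log (1 + ℓ) := ⟨_, rfl⟩
  have hlam1 : 1 ≤ lam := by
    rw [hlam]
    have := Real.log_nonneg (by linarith : (1 : ℝ) ≤ 1 + ℓ)
    linarith
  have h45 : Real.log 45 ≤ 4 := by
    rw [Real.log_le_iff_le_exp (by norm_num)]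
    have h1 : (2.7182818283 : ℝ) < Real.exp 1 := Real.exp_one_gt_d9
    have h2 : Real.exp 4 = Real.exp 1 ^ 4 := by rw [← Real.exp_nat_mul]; norm_num
    rw [h2]
    calc (45 : ℝ) ≤ 2.7 ^ 4 := by norm_num
      _ ≤ Real.exp 1 ^ 4 := pow_le_pow_left₀ (by norm_num) (by linarith) 4
  have hlk : 1 + Real.log (1 + κ) ≤ 5 * lam := by
    have h1 : Real.log (1 + κ) ≤ Real.log (45 * (1 + ℓ)) :=
      Real.log_le_log (by linarith) (by linarith)
    rw [Real.log_mul (by norm_num) (by linarith)] at h1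
    rw [hlam] at hlam1 ⊢
    linarith
  have hlk0 : 0 ≤ 1 + Real.log (1 + κ) := by
    have := Real.log_nonneg (by linarith : (1 : ℝ) ≤ 1 + κ)
    linarith
  have hd' : (d : ℝ) ≤ 13500 * ℓ := by linarith
  refine ⟨hd', ?_⟩
  have ht' : t ≤ Real.exp (3825000 * (ℓ * lam)) := by
    refine ht.trans ?_
    rw [Real.rpow_def_of_pos (by positivity), ← hκ]
    apply Real.exp_le_exp.2
    calc κ * (17000 * (1 + Real.log (1 + κ))) ≤ (45 * ℓ) * (17000 * (5 * lam)) := by
          apply mul_le_mul hκ2 _ (by positivity) (by positivity)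
          linarith
      _ = 3825000 * (ℓ * lam) := by ring
  have h2d : (2 : ℝ) ^ d ≤ Real.exp (13500 * (ℓ * lam)) := by
    rw [← Real.rpow_natCast, Real.rpow_def_of_pos (by norm_num)]
    apply Real.exp_le_exp.2
    have h1 : Real.log 2 * (d : ℝ) ≤ 1 * (13500 * ℓ) :=
      mul_le_mul hlog2' hd' (Nat.cast_nonneg d) (by norm_num)
    have h2 : ℓ ≤ ℓ * lam := le_mul_of_one_le_right hℓ0.le hlam1
    linarith
  have h8 : 8 * L ≤ Real.exp (3 * (ℓ * lam)) := by
    have e : 8 * L = Real.exp (Real.log 4 + ℓ) := by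
      rw [Real.exp_add, hℓ, Real.exp_log (by norm_num), Real.exp_log (by positivity)]
      ring
    rw [e]
    apply Real.exp_le_exp.2
    have h4 : Real.log 4 = 2 * Real.log 2 := by
      rw [show (4 : ℝ) = 2 ^ 2 by norm_num, Real.log_pow]
      norm_num
    have h2 : ℓ ≤ ℓ * lam := le_mul_of_one_le_right hℓ0.le hlam1
    linarith
  rw [← hlam, Real.rpow_def_of_pos (by positivity), ← hℓ]
  calc 8 * L * t * 2 ^ d ≤ Real.exp (3 * (ℓ * lam)) * Real.exp (3825000 * (ℓ * lam)) *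
        Real.exp (13500 * (ℓ * lam)) := by
        apply mul_le_mul _ h2d (by positivity) (by positivity)
        exact mul_le_mul_of_nonneg_left ht' (by positivity) |>.trans
          (mul_le_mul_of_nonneg_right h8 (Real.exp_pos _).le)
    _ = Real.exp (3 * (ℓ * lam) + 3825000 * (ℓ * lam) + 13500 * (ℓ * lam)) := by
        rw [Real.exp_add, Real.exp_add]
    _ ≤ Real.exp (ℓ * (4000000 * lam)) := by
        apply Real.exp_le_exp.2
        have : 0 ≤ ℓ * lam := mul_nonneg hℓ0.le (by linarith)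
        nlinarith

/-- differences of elements of one translate of the progression -/
theorem two_box {d : ℕ} (v : Fin d → Γ) (N : Fin d → ℕ) (c : Fin d → ℤ)
    (hc : ∀ i, |c i| ≤ 2 * (N i : ℤ)) :
    ∃ s : Fin d → Bool, ∃ c' : Fin d → ℤ, (∀ i, |c' i| ≤ N i) ∧
      ∑ i, c i • v i = ∑ i, (if s i then (N i : ℤ) else -(N i : ℤ)) • v i + ∑ i, c' i • v i := by
  classical
  refine ⟨fun i => decide (0 < c i), fun i => c i - (if 0 < c i then (N i : ℤ) else -(N i : ℤ)), ?_, ?_⟩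
  · intro i
    have h := abs_le.1 (hc i)
    rw [abs_le]
    dsimp only
    split_ifs <;> constructor <;> omega
  · rw [← Finset.sum_add_distrib]
    refine Finset.sum_congr rfl fun i _ => ?_
    rw [← add_smul]
    congr 1
    by_cases h : 0 < c i <;> simp [h]

theorem cover (htf : ∀ (n : ℕ) (x : Γ), n ≠ 0 → n • x = 0 → x = 0) {A B : Finset Γ}
    (hA : A.Nonempty) (hB : B.Nonempty) {K L : ℝ} (hAB : ((A + B).card : ℝ) ≤ K * B.card)
    (hE : (B.card : ℝ) ^ 3 ≤ L * (B.addEnergy B : ℕ)) :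
    ∃ (d : ℕ) (v : Fin d → Γ) (N : Fin d → ℕ) (T : Finset Γ),
      (d : ℝ) ≤ 13500 * Real.log (2 * L) ∧
      (∀ a b : Fin d → ℤ, (∀ i, |a i| ≤ N i) → (∀ i, |b i| ≤ N i) →
        ∑ i, a i • v i = ∑ i, b i • v i → a = b) ∧
      ∏ i, (2 * N i + 1) ≤ B.card ∧
      (T.card : ℝ) ≤ K * (2 * L) ^ (4000000 * (1 + Real.log (1 + Real.log (2 * L)))) ∧
      ∀ a ∈ A, ∃ t ∈ T, ∃ c : Fin d → ℤ, (∀ i, |c i| ≤ N i) ∧ a = t + ∑ i, c i • v i := by
  classical
  have hB0 : (0 : ℝ) < B.card := by exact_mod_cast hB.card_pos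
  have hL1 : 1 ≤ L := by
    have h1 : ((B.addEnergy B : ℕ) : ℝ) ≤ (B.card : ℝ) ^ 3 := by exact_mod_cast energy_le B
    have h3 : (0 : ℝ) < (B.card : ℝ) ^ 3 := by positivity
    by_contra hlt
    push Not at hlt
    have h2 : (0 : ℝ) ≤ ((B.addEnergy B : ℕ) : ℝ) := Nat.cast_nonneg _
    rcases le_or_gt L 0 with h | h
    · have : L * ((B.addEnergy B : ℕ) : ℝ) ≤ 0 := mul_nonpos_of_nonpos_of_nonneg h h2
      linarith
    · have : L * ((B.addEnergy B : ℕ) : ℝ) ≤ L * (B.card : ℝ) ^ 3 := mul_le_mul_of_nonneg_left h1 h.le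
      nlinarith
  have hL0 : 0 < L := by linarith
  have hK0 : 0 < K := by
    have h1 : (0 : ℝ) < (A + B).card := by exact_mod_cast (hA.add hB).card_pos
    by_contra hcon
    push Not at hcon
    have := mul_nonpos_of_nonpos_of_nonneg hcon hB0.le
    linarith
  obtain ⟨B', hB'B, hB'ne, h8, hdiff⟩ := Pool.Agent.H217R3.AK.bsg B hB L hL0 hE
  have hB'0 : (0 : ℝ) < B'.card := by exact_mod_cast hB'ne.card_pos
  have hsum := add_le_of_sub hB'ne hdiff
  obtain ⟨d, v, N, T', hd, hprop, hvol, hT', hcov⟩ := H112.near_pfr_gap htf hB'ne hsum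
  obtain ⟨hd', hnum⟩ := numbers hL1 d T'.card hd hT'
  -- the part of `B'` in one translate
  set S : Γ → Finset Γ := fun t => B'.filter fun b => ∃ c : Fin d → ℤ, (∀ i, |c i| ≤ N i) ∧
    b = t + ∑ i, c i • v i with hS
  have hsub : B' ⊆ T'.biUnion S := by
    intro b hb
    obtain ⟨t, ht, c, hc, he⟩ := hcov b hb
    exact Finset.mem_biUnion.2 ⟨t, ht, Finset.mem_filter.2 ⟨hb, c, hc, he⟩⟩
  have hT'ne : T'.Nonempty := by
    obtain ⟨b, hb⟩ := hB'ne
    obtain ⟨t, ht, -⟩ := hcov b hb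
    exact ⟨t, ht⟩
  obtain ⟨t₀, ht₀, hlarge⟩ : ∃ t ∈ T', B'.card ≤ (S t).card * T'.card := by
    by_contra hcon
    push Not at hcon
    have h1 : ∑ t ∈ T', (S t).card * T'.card < ∑ t ∈ T', B'.card :=
      Finset.sum_lt_sum_of_nonempty hT'ne hcon
    rw [← Finset.sum_mul, Finset.sum_const, smul_eq_mul] at h1
    have h2 : B'.card ≤ ∑ t ∈ T', (S t).card := (Finset.card_le_card hsub).trans Finset.card_biUnion_le
    have h3 := Nat.mul_le_mul_right T'.card h2
    rw [mul_comm] at h3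
    omega
  set B'' := S t₀ with hB''
  have hB''ne : B''.Nonempty := by
    rw [Finset.nonempty_iff_ne_empty]
    intro h
    rw [h, Finset.card_empty, zero_mul] at hlarge
    have := hB'ne.card_pos
    omega
  have hB''sub : B'' ⊆ B := (Finset.filter_subset _ _).trans hB'B
  have hlr : (B'.card : ℝ) ≤ (B''.card : ℝ) * T'.card := by exact_mod_cast hlarge
  have hcard : ((A + B'').card : ℝ) ≤ (K * (8 * L * T'.card)) * B''.card := by
    have h1 : ((A + B'').card : ℝ) ≤ (A + B).card := by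
      exact_mod_cast Finset.card_le_card (Finset.add_subset_add_left hB''sub)
    calc ((A + B'').card : ℝ) ≤ K * B.card := h1.trans hAB
      _ ≤ K * (8 * L * B'.card) := mul_le_mul_of_nonneg_left h8 hK0.le
      _ ≤ K * (8 * L * ((B''.card : ℝ) * T'.card)) :=
          mul_le_mul_of_nonneg_left (mul_le_mul_of_nonneg_left hlr (by positivity)) hK0.le
      _ = (K * (8 * L * T'.card)) * B''.card := by ring
  obtain ⟨X, hXA, hXc, hXcov⟩ := Finset.ruzsa_covering_add hB''ne hcard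
  let D : Finset Γ := (Finset.univ : Finset (Fin d → Bool)).image fun s =>
    ∑ i, (if s i then (N i : ℤ) else -(N i : ℤ)) • v i
  have hD : (D.card : ℝ) ≤ 2 ^ d := by
    have h1 : D.card ≤ 2 ^ d := by
      refine Finset.card_image_le.trans (le_of_eq ?_)
      rw [Finset.card_univ, Fintype.card_fun, Fintype.card_bool, Fintype.card_fin]
    exact_mod_cast h1
  refine ⟨d, v, N, X + D, hd', hprop, hvol.trans (Finset.card_le_card hB'B), ?_, ?_⟩
  · have h1 : ((X + D).card : ℝ) ≤ (X.card : ℝ) * D.card := by exact_mod_cast Finset.card_add_le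
    calc ((X + D).card : ℝ) ≤ (X.card : ℝ) * D.card := h1
      _ ≤ (K * (8 * L * T'.card)) * 2 ^ d :=
          mul_le_mul hXc hD (Nat.cast_nonneg _) (by positivity)
      _ = K * (8 * L * T'.card * 2 ^ d) := by ring
      _ ≤ _ := mul_le_mul_of_nonneg_left hnum hK0.le
  · intro a ha
    obtain ⟨x, hx, y, hy, rfl⟩ := Finset.mem_add.1 (hXcov ha)
    obtain ⟨b₁, hb₁, b₂, hb₂, rfl⟩ := Finset.mem_sub.1 hy
    obtain ⟨-, c₁, hc₁, e₁⟩ := Finset.mem_filter.1 hb₁
    obtain ⟨-, c₂, hc₂, e₂⟩ := Finset.mem_filter.1 hb₂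
    obtain ⟨s, c', hc', he'⟩ := two_box v N (c₁ - c₂) (fun i => by
      have h1 := abs_le.1 (hc₁ i)
      have h2 := abs_le.1 (hc₂ i)
      rw [Pi.sub_apply, abs_le]
      constructor <;> omega)
    refine ⟨x + ∑ i, (if s i then (N i : ℤ) else -(N i : ℤ)) • v i,
      Finset.add_mem_add hx (Finset.mem_image_of_mem _ (Finset.mem_univ s)), c', hc', ?_⟩
    have hb : b₁ - b₂ = ∑ i, (c₁ - c₂) i • v i := by
      rw [e₁, e₂, add_sub_add_left_eq_sub, ← Finset.sum_sub_distrib]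
      refine Finset.sum_congr rfl fun i _ => ?_
      rw [Pi.sub_apply, sub_smul]
    rw [hb, he', add_assoc]

theorem result :
    (∀ (Γ : Type) [AddCommGroup Γ] [DecidableEq Γ],
      (∀ (n : ℕ) (x : Γ), n ≠ 0 → n • x = 0 → x = 0) →
      ∀ (A B : Finset Γ) (K L : ℝ), A.Nonempty → B.Nonempty → ((A + B).card : ℝ) ≤ K * B.card →
      (B.card : ℝ) ^ 3 ≤ L * (B.addEnergy B : ℕ) →
      ∃ (d : ℕ) (v : Fin d → Γ) (N : Fin d → ℕ) (T : Finset Γ),
        (d : ℝ) ≤ 13500 * Real.log (2 * L) ∧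
        (∀ a b : Fin d → ℤ, (∀ i, |a i| ≤ N i) → (∀ i, |b i| ≤ N i) →
          ∑ i, a i • v i = ∑ i, b i • v i → a = b) ∧
        ∏ i, (2 * N i + 1) ≤ B.card ∧
        (T.card : ℝ) ≤ K * (2 * L) ^ (4000000 * (1 + Real.log (1 + Real.log (2 * L)))) ∧
        ∀ a ∈ A, ∃ t ∈ T, ∃ c : Fin d → ℤ, (∀ i, |c i| ≤ N i) ∧ a = t + ∑ i, c i • v i) ∧
    ∀ (A B : Finset ℤ) (K M L C : ℝ), B.Nonempty → B ⊆ A → ((A + A).card : ℝ) ≤ K * A.card →
      (A.card : ℝ) ≤ M * B.card → (B.card : ℝ) ^ 3 ≤ L * (B.addEnergy B : ℕ) →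
      Real.log (2 * L) * (1 + Real.log (1 + Real.log (2 * L))) ≤ C * Real.log (2 * K) →
      ∃ (d : ℕ) (v : Fin d → ℤ) (N : Fin d → ℕ) (T : Finset ℤ),
        (d : ℝ) ≤ 13500 * C * Real.log (2 * K) ∧
        (∀ a b : Fin d → ℤ, (∀ i, |a i| ≤ N i) → (∀ i, |b i| ≤ N i) →
          ∑ i, a i * v i = ∑ i, b i * v i → a = b) ∧
        ∏ i, (2 * N i + 1) ≤ A.card ∧
        (T.card : ℝ) ≤ M * (2 * K) ^ (4000000 * C + 1) ∧
        ∀ a ∈ A, ∃ t ∈ T, ∃ c : Fin d → ℤ, (∀ i, |c i| ≤ N i) ∧ a = t + ∑ i, c i * v i := by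
  refine ⟨fun Γ _ _ htf A B K L hA hB hAB hE => cover htf hA hB hAB hE, ?_⟩
  intro A B K M L C hB hBA hAA hAM hE hLC
  have hA : A.Nonempty := hB.mono hBA
  have hA0 : (0 : ℝ) < A.card := by exact_mod_cast hA.card_pos
  have hB0 : (0 : ℝ) < B.card := by exact_mod_cast hB.card_pos
  have hK1 : 1 ≤ K := by
    have h1 : (A.card : ℝ) ≤ (A + A).card := by
      exact_mod_cast Finset.card_le_card_add_right hA
    by_contra hcon
    push Not at hcon
    nlinarith
  have hM0 : 0 < M := by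
    by_contra hcon
    push Not at hcon
    have := mul_nonpos_of_nonpos_of_nonneg hcon hB0.le
    linarith
  have hAB : ((A + B).card : ℝ) ≤ (K * M) * B.card := by
    have h1 : ((A + B).card : ℝ) ≤ (A + A).card := by
      exact_mod_cast Finset.card_le_card (Finset.add_subset_add_left hBA)
    calc ((A + B).card : ℝ) ≤ K * A.card := h1.trans hAA
      _ ≤ K * (M * B.card) := mul_le_mul_of_nonneg_left hAM (by linarith)
      _ = (K * M) * B.card := by ring
  have hL1 : 1 ≤ L := by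
    have h1 : ((B.addEnergy B : ℕ) : ℝ) ≤ (B.card : ℝ) ^ 3 := by exact_mod_cast energy_le B
    have h3 : (0 : ℝ) < (B.card : ℝ) ^ 3 := by positivity
    by_contra hlt
    push Not at hlt
    have h2 : (0 : ℝ) ≤ ((B.addEnergy B : ℕ) : ℝ) := Nat.cast_nonneg _
    rcases le_or_gt L 0 with h | h
    · have : L * ((B.addEnergy B : ℕ) : ℝ) ≤ 0 := mul_nonpos_of_nonpos_of_nonneg h h2
      linarith
    · have : L * ((B.addEnergy B : ℕ) : ℝ) ≤ L * (B.card : ℝ) ^ 3 := mul_le_mul_of_nonneg_left h1 h.le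
      nlinarith
  obtain ⟨d, v, N, T, hd, hprop, hvol, hT, hcov⟩ := cover (fun n x hn hx => by
    rw [nsmul_eq_mul] at hx
    rcases mul_eq_zero.1 hx with h | h
    · exact absurd (by exact_mod_cast h) hn
    · exact h) hA hB hAB hE
  have hℓ0 : 0 < Real.log (2 * L) := Real.log_pos (by linarith)
  have hlam : 1 ≤ 1 + Real.log (1 + Real.log (2 * L)) := by
    have := Real.log_nonneg (by linarith : (1 : ℝ) ≤ 1 + Real.log (2 * L))
    linarith
  refine ⟨d, v, N, T, ?_, ?_, hvol.trans (Finset.card_le_card hBA), ?_, ?_⟩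
  · have h1 : Real.log (2 * L) ≤ Real.log (2 * L) * (1 + Real.log (1 + Real.log (2 * L))) :=
      le_mul_of_one_le_right hℓ0.le hlam
    nlinarith
  · intro a b ha hb h
    apply hprop a b ha hb
    simpa only [smul_eq_mul] using h
  · have h2K : 0 < 2 * K := by linarith
    have h1 : (2 * L) ^ (4000000 * (1 + Real.log (1 + Real.log (2 * L)))) ≤ (2 * K) ^ (4000000 * C) := by
      rw [Real.rpow_def_of_pos (by linarith), Real.rpow_def_of_pos h2K]
      apply Real.exp_le_exp.2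
      nlinarith
    have h3 : (T.card : ℝ) ≤ (K * M) * (2 * K) ^ (4000000 * C) :=
      hT.trans (mul_le_mul_of_nonneg_left h1 (by positivity))
    refine h3.trans ?_
    rw [Real.rpow_add h2K, Real.rpow_one]
    have h4 : (0 : ℝ) ≤ (2 * K) ^ (4000000 * C) := (Real.rpow_pos_of_pos h2K _).le
    have h5 : 0 ≤ M * (2 * K) ^ (4000000 * C) * K := by positivity
    nlinarith
  · intro a ha
    obtain ⟨t, ht, c, hc, he⟩ := hcov a ha
    exact ⟨t, ht, c, hc, by simpa only [smul_eq_mul] using he⟩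

end Pool.Agent.Results.MP_626a77_co.LargeEnergy
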