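import Pool.Agent.H70N.Many3

/-!
# Polynomial Freiman-Ruzsa for the summands of sums of many sets

Let `A 0, ..., A k` be finite sets in a torsion-free abelian group, `k ≥ 2`, with at least `N` elements
each, and `|A 0 + ... + A k| ≤ M N`. Then there is one proper progression `P` of rank at most
`C (1 + log (2 M) / log k)` and volume at most `N` such that every `A i` is covered by
`(2 M) ^ (C (1 + log (1 + log (2 M)) / log k))` translates of `P`; this is polynomial in `M` as soon as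
`k ≥ (log (2 M)) ^ ε`. The sets may be quite different from each other. For example: the second part is
about the sets `A` with `|A + T 1 A + ... + T k A| ≤ M |A|`, where the `T i` are injective
endomorphisms (dilations).
-/

set_option autoImplicit false

open scoped Pointwise

namespace Pool.Agent.Results.MP_626a77_co.ManySummands

/-- `A 0 + A 1 + ... + A n` -/
def sumUpTo {Γ : Type*} [AddCommGroup Γ] [DecidableEq Γ] (A : ℕ → Finset Γ) : ℕ → Finset Γ
  | 0 => A 0
  | n + 1 => sumUpTo A n + A (n + 1)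

/-- `B` is covered by the translates `t + P`, `t ∈ T`, of the progression
`P = {∑ c i v i : |c i| ≤ L i}` -/
def Covered {Γ : Type*} [AddCommGroup Γ] {d : ℕ} (v : Fin d → Γ) (L : Fin d → ℕ)
    (T B : Finset Γ) : Prop :=
  ∀ a ∈ B, ∃ t ∈ T, ∃ c : Fin d → ℤ, (∀ i, |c i| ≤ L i) ∧ a = t + ∑ i, c i • v i

/-- the sums `∑ c i v i`, `|c i| ≤ L i`, are distinct for distinct `c` -/
def Proper {Γ : Type*} [AddCommGroup Γ] {d : ℕ} (v : Fin d → Γ) (L : Fin d → ℕ) : Prop :=
  ∀ a b : Fin d → ℤ, (∀ i, |a i| ≤ L i) → (∀ i, |b i| ≤ L i) →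
    ∑ i, a i • v i = ∑ i, b i • v i → a = b

lemma sumUpTo_eq {Γ : Type*} [AddCommGroup Γ] [DecidableEq Γ] (A : ℕ → Finset Γ) : ∀ n : ℕ,
    sumUpTo A n = Pool.Agent.H70N.Many.sumUpTo A n
  | 0 => rfl
  | n + 1 => by rw [sumUpTo, Pool.Agent.H70N.Many.sumUpTo, sumUpTo_eq A n]

/-- the exponent if `k ≥ (log (2 M)) ^ ε` -/
lemma exponent {M : ℝ} (hM1 : 1 ≤ M) {k : ℕ} (hk : 2 ≤ k) {ε : ℝ} (hε : 0 < ε)
    (hkε : Real.log (2 * M) ^ ε ≤ k) :
    (2 * M) ^ (1000000 * (1 + Real.log (1 + Real.log (2 * M)) / Real.log k)) ≤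
      (2 * M) ^ (1000000 * (2 + 1 / ε)) := by
  have hM0 : 0 < M := by linarith
  have hlog2 : 0.69 < Real.log 2 := by have := Real.log_two_gt_d9; linarith
  set lam := Real.log (2 * M) with hlam
  set ℓ := Real.log k with hℓdef
  have hℓ2 : Real.log 2 ≤ ℓ := Real.log_le_log (by norm_num) (by exact_mod_cast hk)
  have hℓ : 0 < ℓ := by linarith
  have hlamM : lam = Real.log 2 + Real.log M := Real.log_mul (by norm_num) hM0.ne'
  have hlogM : 0 ≤ Real.log M := Real.log_nonneg hM1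
  have hlam0 : 0.69 < lam := by linarith
  set a := Real.log (1 + lam) with ha
  refine Real.rpow_le_rpow_of_exponent_le (by linarith) ?_
  have h1 : a / ℓ ≤ 1 + 1 / ε := by
    rw [div_le_iff₀ hℓ]
    rcases le_or_gt lam 1 with h2 | h2
    · have h3 : a ≤ Real.log 2 := Real.log_le_log (by linarith) (by linarith)
      have h4 : 0 ≤ 1 / ε * ℓ := by positivity
      nlinarith
    · have h3 : ε * Real.log lam ≤ ℓ := by
        rw [← Real.log_rpow (by linarith)]
        exact Real.log_le_log (Real.rpow_pos_of_pos (by linarith) _) hkε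
      have h4 : a ≤ Real.log 2 + Real.log lam := by
        rw [← Real.log_mul (by norm_num) (by linarith)]
        exact Real.log_le_log (by linarith) (by linarith)
      have h5 : Real.log lam ≤ 1 / ε * ℓ := by
        rw [one_div, inv_mul_eq_div, le_div_iff₀ hε]; linarith
      linarith
  linarith

theorem result {Γ : Type*} [AddCommGroup Γ] [DecidableEq Γ]
    (htf : ∀ (n : ℕ) (x : Γ), n ≠ 0 → n • x = 0 → x = 0) (k : ℕ) (hk : 2 ≤ k) :
    -- the sum of many different sets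
    (∀ (A : ℕ → Finset Γ) (N : ℕ) (M : ℝ), 1 ≤ N → (∀ i ≤ k, N ≤ (A i).card) →
      ((sumUpTo A k).card : ℝ) ≤ M * N →
      ∃ (d : ℕ) (v : Fin d → Γ) (L : Fin d → ℕ),
        (d : ℝ) ≤ 1200 * (1 + Real.log (2 * M) / Real.log k) ∧ Proper v L ∧
        ∏ i, (2 * L i + 1) ≤ N ∧
        ∀ i ≤ k, ∃ T : Finset Γ, Covered v L T (A i) ∧
          (T.card : ℝ) ≤
            (2 * M) ^ (1000000 * (1 + Real.log (1 + Real.log (2 * M)) / Real.log k)) ∧
          ∀ ε : ℝ, 0 < ε → Real.log (2 * M) ^ ε ≤ k →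
            (T.card : ℝ) ≤ (2 * M) ^ (1000000 * (2 + 1 / ε))) ∧
    -- sums of many dilates of one set
    ∀ (D : ℕ → Γ →+ Γ) (A : Finset Γ) (M : ℝ), (∀ i, Function.Injective (D i)) → A.Nonempty →
      D 0 = AddMonoidHom.id Γ → ((sumUpTo (fun i => A.image (D i)) k).card : ℝ) ≤ M * A.card →
      ∃ (d : ℕ) (v : Fin d → Γ) (L : Fin d → ℕ) (T : Finset Γ),
        (d : ℝ) ≤ 1200 * (1 + Real.log (2 * M) / Real.log k) ∧ Proper v L ∧
        ∏ i, (2 * L i + 1) ≤ A.card ∧ Covered v L T A ∧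
        (T.card : ℝ) ≤
          (2 * M) ^ (1000000 * (1 + Real.log (1 + Real.log (2 * M)) / Real.log k)) ∧
        ∀ ε : ℝ, 0 < ε → Real.log (2 * M) ^ ε ≤ k →
          (T.card : ℝ) ≤ (2 * M) ^ (1000000 * (2 + 1 / ε)) := by
  have part1 : ∀ (A : ℕ → Finset Γ) (N : ℕ) (M : ℝ), 1 ≤ N → (∀ i ≤ k, N ≤ (A i).card) →
      ((sumUpTo A k).card : ℝ) ≤ M * N →
      ∃ (d : ℕ) (v : Fin d → Γ) (L : Fin d → ℕ),
        (d : ℝ) ≤ 1200 * (1 + Real.log (2 * M) / Real.log k) ∧ Proper v L ∧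
        ∏ i, (2 * L i + 1) ≤ N ∧
        ∀ i ≤ k, ∃ T : Finset Γ, Covered v L T (A i) ∧
          (T.card : ℝ) ≤
            (2 * M) ^ (1000000 * (1 + Real.log (1 + Real.log (2 * M)) / Real.log k)) ∧
          ∀ ε : ℝ, 0 < ε → Real.log (2 * M) ^ ε ≤ k →
            (T.card : ℝ) ≤ (2 * M) ^ (1000000 * (2 + 1 / ε)) := by
    intro A N M hN hA hM
    rw [sumUpTo_eq] at hM
    obtain ⟨hM1, d, v, L, hd, hprop, hvol, hcov⟩ :=
      Pool.Agent.H70N.Many.main htf A k N hk hN hA M hM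
    refine ⟨d, v, L, hd, hprop, hvol, fun i hi => ?_⟩
    obtain ⟨T, hT, hc⟩ := hcov i hi
    exact ⟨T, hc, hT, fun ε hε hkε => hT.trans (exponent hM1 hk hε hkε)⟩
  refine ⟨part1, fun D A M hD hA hD0 hM => ?_⟩
  obtain ⟨d, v, L, hd, hprop, hvol, hcov⟩ := part1 (fun i => A.image (D i)) A.card M hA.card_pos
    (fun i _ => (Finset.card_image_of_injective A (hD i)).ge) hM
  obtain ⟨T, hc, hT, hTε⟩ := hcov 0 (Nat.zero_le _)
  refine ⟨d, v, L, T, hd, hprop, hvol, ?_, hT, hTε⟩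
  have h0 : A.image (D 0) = A := by
    rw [hD0]
    exact Finset.image_id
  simpa only [h0] using hc

end Pool.Agent.Results.MP_626a77_co.ManySummands
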